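import Pool.Agent.Helper21.D2.Stmts
import Pool.Agent.Helper82.AHS.Trn
import Pool.Agent.Helper6.D2.WT0

/-! HDG: the transported tensors are Hodge tensors. -/

set_option autoImplicit false

namespace Pool.Agent.Helper21.TH

open Matrix Pool.Agent.Helper82.AHS

theorem st_HDG (hS : ST_SPN) : ST_HDG := by
  intro r m n W Q Q' g c μ t a hQ hs hk hg hc hW hmn ha
  set G : Matrix (Fin r) (Fin r) ℂ := (g : Matrix (Fin r) (Fin r) ℂ) with hG
  set H : Matrix (Fin r) (Fin r) ℂ := ((g⁻¹ : GL (Fin r) ℂ) : Matrix (Fin r) (Fin r) ℂ) with hH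
  have hGH : G * H = 1 := gl_mul_inv g
  have hHG : H * G = 1 := gl_inv_mul g
  set q : Matrix (Fin r) (Fin r) ℂ := Q.map (algebraMap ℚ ℂ) with hq
  set q' : Matrix (Fin r) (Fin r) ℂ := Q'.map (algebraMap ℚ ℂ) with hq'
  have hqe : q = c⁻¹ • (Gᵀ * q' * G) := by rw [hg, smul_smul, inv_mul_cancel₀ hc, one_smul]
  have hHG' : Gᵀ * Hᵀ = 1 := by rw [← Matrix.transpose_mul, hHG, Matrix.transpose_one]
  have hHG2 : Hᵀ * Gᵀ = 1 := by rw [← Matrix.transpose_mul, hGH, Matrix.transpose_one]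
  set x : Matrix (Fin r) (Fin r) ℂ := H * W.D * G with hx
  -- `x` is a similitude of `q`
  have h1 : xᵀ * q + q * x = μ • q := by
    have e1 : xᵀ * q = c⁻¹ • (Gᵀ * (W.Dᵀ * q') * G) := by
      rw [hqe, Matrix.mul_smul]
      congr 1
      rw [hx, Matrix.transpose_mul, Matrix.transpose_mul]
      calc Gᵀ * (W.Dᵀ * Hᵀ) * (Gᵀ * q' * G) = Gᵀ * (W.Dᵀ * ((Hᵀ * Gᵀ) * q')) * G := by
            simp only [Matrix.mul_assoc]
        _ = _ := by rw [hHG2, Matrix.one_mul]
    have e2 : q * x = c⁻¹ • (Gᵀ * (q' * W.D) * G) := by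
      rw [hqe, Matrix.smul_mul]
      congr 1
      rw [hx]
      calc Gᵀ * q' * G * (H * W.D * G) = Gᵀ * (q' * ((G * H) * W.D)) * G := by
            simp only [Matrix.mul_assoc]
        _ = _ := by rw [hGH, Matrix.one_mul]
    rw [e1, e2, ← smul_add, ← Matrix.add_mul, ← Matrix.mul_add, hW, Matrix.mul_smul,
      Matrix.smul_mul, hqe, smul_comm]
  have h2 : (x - (μ / 2) • (1 : Matrix (Fin r) (Fin r) ℂ))ᵀ * q +
      q * (x - (μ / 2) • (1 : Matrix (Fin r) (Fin r) ℂ)) = 0 := by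
    rw [Matrix.transpose_sub, Matrix.transpose_smul, Matrix.transpose_one, Matrix.sub_mul,
      Matrix.mul_sub, Matrix.smul_mul, Matrix.mul_smul, Matrix.one_mul, Matrix.mul_one,
      sub_add_sub_comm, h1, ← add_smul, add_halves, sub_self]
  have h3 := hS r m n Q t hQ hs hk ℂ _ h2
  have h4 : Kill x (up ℂ t) := by
    unfold Kill
    have hxx : x = (x - (μ / 2) • (1 : Matrix (Fin r) (Fin r) ℂ)) + (μ / 2) • 1 := by
      rw [sub_add_cancel]
    rw [hxx, dr_add, dr_add, dr_smul, dr_smul, h6_dr_one, h6_dr_one, Matrix.add_mul,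
      Matrix.mul_add, h3, Matrix.smul_mul, Matrix.smul_mul, Matrix.one_mul, Matrix.mul_smul,
      Matrix.mul_smul, Matrix.mul_one]
    rcases hmn with rfl | rfl
    · rfl
    · simp
  have h5 := kill_act g h4
  change Kill (G * x * H) (act g (up ℂ t)) at h5
  have h6 : G * x * H = W.D := by
    rw [hx]
    calc G * (H * W.D * G) * H = (G * H) * W.D * (G * H) := by simp only [Matrix.mul_assoc]
      _ = W.D := by rw [hGH, Matrix.one_mul, Matrix.mul_one]
  rw [h6, ← ha] at h5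
  exact h5

end Pool.Agent.Helper21.TH
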